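import Pool.Agent.Lib_helper40.MC.X8c.Dat

/-!
# exceptional curve c: the trivial relations
-/

set_option autoImplicit false
set_option maxRecDepth 100000

namespace Pool.Agent.MCX8c

open Pool.Agent.KC72 Pool.Agent.MC

theorem x8c_t0 : blk (cT x8c x8c_t) x8c.T 40 0 = true := by decide +kernel

theorem x8c_t1 : blk (cT x8c x8c_t) x8c.T 40 1 = true := by decide +kernel

theorem x8c_t2 : blk (cT x8c x8c_t) x8c.T 40 2 = true := by decide +kernel

theorem x8c_t' : ∀ k < 3, blk (cT x8c x8c_t) x8c.T 40 k = true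
  | 0, _ => x8c_t0
  | 1, _ => x8c_t1
  | 2, _ => x8c_t2
  | k + 3, h => absurd h (by omega)

end Pool.Agent.MCX8c
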