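import Pool.Agent.Lib_helper40.MC.X8c.Q
import Pool.Agent.Lib_helper40.MC.X8c.T

/-!
# exceptional curve c: all checks
-/

set_option autoImplicit false
set_option maxRecDepth 100000

namespace Pool.Agent.MCX8c

open Pool.Agent.KC72 Pool.Agent.MC

theorem x8c_0 : NumX x8c x8c_t x8c_ll.length := by decide +kernel

theorem x8c_om : xm x8c.kb x8c.ko (x8c.m * x8c.N) x8c.Om = true := by decide +kernel

theorem x8c_b : cB x8c = true := by decide +kernel

theorem x8c_r0 : blk (cR x8c) x8c.rels 60 0 = true := by decide +kernel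

theorem x8c_r' : ∀ k < 1, blk (cR x8c) x8c.rels 60 k = true
  | 0, _ => x8c_r0
  | k + 1, h => absurd h (by omega)

theorem x8c_g : allI (fun c g => cG x8c.DG x8c_t.B x8c_t.MA x8c_t.P2 x8c_t.MB c g) x8c.G 0 = true := by decide +kernel

theorem x8c_g' : x8c.toCert.chk3' = true := by decide +kernel

theorem x8c_k1 : (x8c.cls.take x8c.m).map (prF x8c_t.p x8c.n x8c.r) = x8c_t.PR := by decide +kernel

theorem x8c_k2 : (x8c.cls.take x8c.m).map (pkw (Int.ofNat x8c_t.Z) (Int.ofNat (Nat.pow x8c_t.Z x8c.n)) x8c.r) = x8c_t.PM := by decide +kernel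

theorem x8c_k3 : x8c_t.P2.map (fun x => pmb (Int.ofNat x8c_t.B) x.1 x.2 (x8c.cls.take x8c.m)) = x8c_t.MB := by decide +kernel

theorem x8c_e : x8c.cls.all (fun e => bdE x8c_t.MA x8c.n e.1.2 && bdE x8c_t.MA x8c.n e.2.2) = true := by decide +kernel

theorem x8c_xq : x8c_t.XQ.all (fun X => X.all (xm x8c_t.a x8c_t.d x8c_t.S)) = true := by decide +kernel

theorem x8c_xt : x8c_t.XT.all (fun X => X.all (xm x8c_t.a' x8c_t.d' x8c_t.K)) = true := by decide +kernel

theorem x8c_d0_0 : blk (cD x8c x8c_v0) x8c.Q 40 0 = true := by decide +kernel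

theorem x8c_d0_1 : blk (cD x8c x8c_v0) x8c.Q 40 1 = true := by decide +kernel

theorem x8c_d0_' : ∀ k < 2, blk (cD x8c x8c_v0) x8c.Q 40 k = true
  | 0, _ => x8c_d0_0
  | 1, _ => x8c_d0_1
  | k + 2, h => absurd h (by omega)

theorem x8c_d1_0 : blk (cD x8c x8c_v1) x8c.Q 40 0 = true := by decide +kernel

theorem x8c_d1_1 : blk (cD x8c x8c_v1) x8c.Q 40 1 = true := by decide +kernel

theorem x8c_d1_' : ∀ k < 2, blk (cD x8c x8c_v1) x8c.Q 40 k = true
  | 0, _ => x8c_d1_0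
  | 1, _ => x8c_d1_1
  | k + 2, h => absurd h (by omega)

theorem x8c_x : allI (fun s L => cL x8c x8c_t (x8c_vl.getD s []) s L) x8c_ll 0 = true := by decide +kernel

/-- all checks -/
theorem x8c_ok : ROkX x8c x8c_ll :=
  rOkX_of (A := x8c_t) (VL := x8c_vl) (l4 := 60) (n4 := 1) (lQ := 40) (nQ := 2) (lT := 40) (nT := 3) rfl x8c_0 x8c_om x8c_b
    (by decide) (by decide +kernel) x8c_r' x8c_g x8c_g' ⟨x8c_k1, x8c_k2, x8c_k3⟩ x8c_e x8c_xq x8c_xt (by decide) (by decide +kernel) x8c_q'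
    (by decide) (by decide +kernel) x8c_t' x8c_x
    (List.forall_mem_cons.2 ⟨x8c_d0_', (List.forall_mem_cons.2 ⟨x8c_d1_', (List.forall_mem_nil _)⟩)⟩)

end Pool.Agent.MCX8c
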