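import Pool.Agent.Lib_helper40.MC.P2
import Pool.Agent.Lib_helper40.MC.X8c.Ok
import Pool.Agent.Lib_helper60.K8c.Cl

/-!
# The classes of the certificate `x8c` are the kept classes of the table
-/

set_option autoImplicit false
set_option maxRecDepth 100000

namespace Pool.Agent.MCX8c

open Pool.Agent.MC Pool.Agent.KC72

/-- the kept classes -/
def kept : List (Mo × Mo) := Pool.Agent.K8c.cls.take 58

/-- positions -/
def ia : List ℕ := [52, 46, 45, 39, 38, 37, 43, 34, 35, 54, 55, 29, 17, 27, 16, 8, 53, 40, 47, 51, 36, 57, 42, 44,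
  49, 19, 33, 2, 26, 0, 4, 18, 15, 20, 11, 14, 24, 32, 10, 22, 6, 7, 30, 41, 23, 31, 12, 1, 13,
  9, 3, 5, 50, 48, 25, 28, 21, 56]

/-- positions -/
def ib : List ℕ := [29, 47, 27, 50, 30, 51, 40, 41, 15, 49, 38, 34, 46, 48, 35, 32, 14, 12, 31, 25, 33, 56, 39, 44,
  36, 54, 28, 13, 55, 11, 42, 45, 37, 26, 7, 8, 20, 5, 4, 3, 17, 43, 22, 6, 23, 2, 1, 18, 53, 24,
  52, 19, 0, 16, 9, 10, 57, 21]

/-- **the same classes** -/
theorem same : sameC x8c.cls kept = true :=
  sameC_of_pos (a := ia) (b := ib) (by decide +kernel) (by decide +kernel)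

theorem n_eq : x8c.n = 9 := rfl

theorem r_eq : x8c.r = 7 := rfl

end Pool.Agent.MCX8c
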